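import Pool.Agent.H8.WP.Targets

/-!
# MP_64fb07_lc, board `wp8_modules`: module ST, from the axioms to a tiling
-/

set_option autoImplicit false

namespace Pool.Agent.H54.WP

open Pool.Agent.H69.Sp Pool.Agent.H69.Mt Pool.Agent.H16.TO Pool.Agent.H8.PL Pool.Agent.H8.DI
open Pool.Agent.H8.WP

theorem pf_st (hIX : W_IX) (hIG : W_IG) : W_ST := by
  intro V Q _ _ U Hh Vv st lt S I D F G hP ht
  obtain ⟨M, q, a, hI, hc⟩ := hIX V Q U Hh Vv st lt S I D F G hP ht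
  obtain ⟨W, hW, hM, t, hG⟩ := hIG Q U Hh Vv M q a hI
  exact ⟨W, q, hW, hI.pos, ⟨t, hG⟩, by rw [hc, hM]⟩

end Pool.Agent.H54.WP
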